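import Pool.Agent.Y274.EQM

/-!
# Borel sets of equal Haar measure are equidecomposable

Banach and Tarski proved that two Borel sets of `ℝⁿ` with nonempty interior and the same measure are
countably equidecomposable with Borel pieces. We prove the same, using left translations only, in
every locally compact group, for sets of finite or sigma-finite Haar measure, and we determine the
embedding relation. The case of measure zero is the question Q1 of `MP_5eb27c_an`.
-/

set_option autoImplicit false

open MeasureTheory MeasureTheory.Measure Set
open Pool.Agent.Results.MP_5eb27c_an.PackNull (CountablyBorelEquidecomposable)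
open Pool.Agent.Y274.EQM (SigmaFiniteSet)

namespace Pool.Agent.Results.MP_5eb27c_an.EqualMeasure

/-- **Comparison theorem for Haar measure.** Let `G` be a locally compact Hausdorff group and `μ` an
outer regular left Haar measure. Let `A` and `B` be Borel sets, and let `B` have nonempty interior
(for instance, let `B` be a nonempty open set).

1. (question Q1) If `μ A = 0` then `A` is countably equidecomposable, by left translations and with
   Borel pieces, with a subset of `B`.
2. (embedding) More generally, if `A` is covered by countably many Borel sets of finite measure, then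
   `A` is countably equidecomposable with a subset of `B` if and only if `B` contains a Borel set
   `C`, covered by countably many Borel sets of finite measure, with `μ A ≤ μ C`.
3. (equality) If `A` has nonempty interior as well, and both sets are covered by countably many
   Borel sets of finite measure (for instance both have finite measure; or `G` is sigma-compact),
   then `A` and `B` are countably equidecomposable if and only if `μ A = μ B`. -/
theorem result.{u} :
    ∀ (G : Type u) [Group G] [TopologicalSpace G] [IsTopologicalGroup G]
      [LocallyCompactSpace G] [T2Space G] [MeasurableSpace G] [BorelSpace G]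
      (μ : Measure G) [μ.IsHaarMeasure] [μ.OuterRegular] (A B : Set G),
      MeasurableSet A → MeasurableSet B → (interior B).Nonempty →
      (μ A = 0 → ∃ F ⊆ B, CountablyBorelEquidecomposable A F) ∧
      (SigmaFiniteSet μ A →
        ((∃ F ⊆ B, CountablyBorelEquidecomposable A F) ↔
          ∃ C ⊆ B, MeasurableSet C ∧ SigmaFiniteSet μ C ∧ μ A ≤ μ C)) ∧
      (SigmaFiniteSet μ A → SigmaFiniteSet μ B → (interior A).Nonempty →
        (CountablyBorelEquidecomposable A B ↔ μ A = μ B)) := by
  intro G _ _ _ _ _ _ _ μ _ _ A B hA hB hBi
  have : μ.Regular := Pool.Agent.Y274.EQM.regular_of_outer μ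
  have h1 : SigmaFiniteSet μ A →
        ((∃ F ⊆ B, CountablyBorelEquidecomposable A F) ↔
          ∃ C ⊆ B, MeasurableSet C ∧ SigmaFiniteSet μ C ∧ μ A ≤ μ C) := by
    intro hAs
    constructor
    · rintro ⟨F, hF, hAF⟩
      refine ⟨F, hF, ?_, Pool.Agent.Y274.EQM.cbe_sigma μ hAF hAs,
        (Pool.Agent.Y274.EQM.cbe_measure μ hAF).le⟩
      obtain ⟨P, Q, g, h1, h2, h3, h4, h5, h6, h7⟩ := hAF
      rw [← h6]
      exact MeasurableSet.iUnion h2
    · rintro ⟨C, hCB, hC, hCs, hAC⟩
      exact (Pool.Agent.Y274.EQM.embed μ hA hAs hC hCB hCs hAC hBi).toEquidecomposable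
  refine ⟨fun hE0 => ?_, h1, fun hAs hBs hAi => ⟨Pool.Agent.Y274.EQM.cbe_measure μ, fun h => ?_⟩⟩
  · refine (h1 ⟨fun _ => A, fun _ => ⟨hA, ?_⟩, ?_⟩).2 ⟨∅, empty_subset B, MeasurableSet.empty,
        ⟨fun _ => ∅, fun _ => ⟨MeasurableSet.empty, ?_⟩, empty_subset _⟩, ?_⟩
    · rw [hE0]
      exact ENNReal.zero_lt_top
    · exact subset_iUnion (fun _ : ℕ => A) 0
    · rw [measure_empty]
      exact ENNReal.zero_lt_top
    · rw [hE0]
      exact bot_le
  · exact Pool.Agent.Y274.EQM.schroeder hA hB
      (Pool.Agent.Y274.EQM.embed μ hA hAs hB Subset.rfl hBs h.le hBi)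
      (Pool.Agent.Y274.EQM.embed μ hB hBs hA Subset.rfl hAs h.ge hAi)

end Pool.Agent.Results.MP_5eb27c_an.EqualMeasure
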